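import Pool.Agent.Lib.MP_aa40d3_nt.MG.Rep

/-! The induced homomorphism. -/

namespace Pool.Agent.GR.OH

variable {G : Type} [Group G]

/-- As `RepC.ind`, with values in the algebra. -/
theorem exists_ind (G₁ : Subgroup G) [G₁.FiniteIndex] {A : Type} [Ring A] [Algebra ℂ A]
    [FiniteDimensional ℂ A] (ρ : G₁ →* A) :
    ∃ (B : Type) (_ : Ring B) (_ : Algebra ℂ B) (_ : FiniteDimensional ℂ B) (R : G →* B)
      (F : B →ₗ[ℂ] A), Module.finrank ℂ B = G₁.index * G₁.index * Module.finrank ℂ A ∧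
        (∀ x : G₁, F (R x) = ρ x) ∧ ∀ x, x ∉ G₁ → F (R x) = 0 := by
  classical
  obtain ⟨e, he, he0, hem⟩ := rep_ext G₁ ρ
  have := Fintype.ofFinite (G ⧸ G₁)
  have hiff : ∀ (g : G) (r : G ⧸ G₁), g⁻¹ * r.out ∈ G₁ ↔ r = (g : G ⧸ G₁) := fun g r => by
    rw [← QuotientGroup.eq, QuotientGroup.out_eq', eq_comm]
  let R : G →* Matrix (G ⧸ G₁) (G ⧸ G₁) A :=
    { toFun := fun x => Matrix.of fun q q' => e (q.out⁻¹ * x * q'.out)
      map_one' := by
        ext q q'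
        rw [Matrix.of_apply, mul_one, Matrix.one_apply]
        split_ifs with hq
        · rw [hq, inv_mul_cancel]
          exact (he 1).trans (map_one ρ)
        · refine he0 _ fun hm => hq ?_
          rw [(hiff _ _).1 hm, QuotientGroup.out_eq']
      map_mul' := fun x y => by
        ext q q'
        have key : ∀ r : G ⧸ G₁, q.out⁻¹ * x * r.out ∈ G₁ ↔ r = ((x⁻¹ * q.out : G) : G ⧸ G₁) :=
          fun r => by rw [← hiff, mul_inv_rev, inv_inv]
        rw [Matrix.mul_apply, Finset.sum_eq_single ((x⁻¹ * q.out : G) : G ⧸ G₁)]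
        · simp only [Matrix.of_apply]
          rw [hem _ ((key _).2 rfl)]
          congr 1
          group
        · intro r _ hr
          simp only [Matrix.of_apply]
          rw [he0 _ fun hm => hr ((key r).1 hm), zero_mul]
        · intro hr
          exact absurd (Finset.mem_univ _) hr }
  have hw : (((1 : G) : G ⧸ G₁)).out ∈ G₁ := by
    have := (hiff 1 ((1 : G) : G ⧸ G₁)).2 rfl
    rwa [inv_one, one_mul] at this
  let F : Matrix (G ⧸ G₁) (G ⧸ G₁) A →ₗ[ℂ] A :=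
    { toFun := fun M => ρ ⟨_, hw⟩ * M ((1 : G) : G ⧸ G₁) ((1 : G) : G ⧸ G₁) * ρ ⟨_, hw⟩⁻¹
      map_add' := fun M N => by rw [Matrix.add_apply, mul_add, add_mul]
      map_smul' := fun c M => by
        rw [Matrix.smul_apply, mul_smul_comm, smul_mul_assoc, RingHom.id_apply] }
  refine ⟨Matrix (G ⧸ G₁) (G ⧸ G₁) A, inferInstance, inferInstance, inferInstance, R, F, ?_,
    fun x => ?_, fun x hx => ?_⟩
  · rw [Module.finrank_matrix, ← Nat.card_eq_fintype_card, ← Subgroup.index_eq_card]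
  · have h1 : R x ((1 : G) : G ⧸ G₁) ((1 : G) : G ⧸ G₁) = ρ (⟨_, hw⟩⁻¹ * x * ⟨_, hw⟩) :=
      he ((⟨_, hw⟩ : G₁)⁻¹ * x * (⟨_, hw⟩ : G₁))
    change ρ ⟨_, hw⟩ * R x ((1 : G) : G ⧸ G₁) ((1 : G) : G ⧸ G₁) * ρ ⟨_, hw⟩⁻¹ = ρ x
    rw [h1, ← map_mul, ← map_mul]
    congr 1
    group
  · have h1 : R x ((1 : G) : G ⧸ G₁) ((1 : G) : G ⧸ G₁) = 0 := he0 _ fun k =>
      hx ((G₁.mul_mem_cancel_left (inv_mem hw)).1 ((G₁.mul_mem_cancel_right hw).1 k))
    change ρ ⟨_, hw⟩ * R x ((1 : G) : G ⧸ G₁) ((1 : G) : G ⧸ G₁) * ρ ⟨_, hw⟩⁻¹ = 0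
    rw [h1, mul_zero, zero_mul]

end Pool.Agent.GR.OH
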