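import Pool.Agent.Lib.MP_aa40d3_nt.OP.Esc
import Pool.Agent.Lib.MP_aa40d3_nt.OH.Ind

/-! The escape lemma on two sheets. -/

namespace Pool.Agent.GR.OH

open GC FB OP

variable {n d : ℕ} {G : Type} [Group G] {Mov : Finset (Fin n)} {L0 : List (Fin n)}
  {A : Type} [Ring A] [Algebra ℂ A] [FiniteDimensional ℂ A]

theorem escQ (h0 : L0.Nodup) (hall : ∀ a, a ∈ L0) {g : Fin n → G × Mk}
    (hg : Subgroup.closure (Set.range (MonoidHom.fst G Mk ∘ g)) = ⊤)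
    (P : G → Prop) (hP : ∀ γ x, P x → P (γ * x * γ⁻¹)) (hPa : ∀ a ∈ Mov, P (g a).1) {D : ℕ}
    (hk : Kf (D + 1) (D + 1) ≤ Mov.card) (hD : Module.finrank ℂ A ≤ D) (ρ : G →* A) :
    ∃ (T : List (G × Mk)) (C : List (Fin n)) (h : Fin n → G × Mk) (N : Subgroup G),
      Hur (L0.map g) (T ++ C.map h) ∧ (∀ a, a ∉ Mov → a ∈ C) ∧ (∀ a, IsConj (g a) (h a)) ∧
      N.Normal ∧ (∃ z ∈ N, P z) ∧
      ∀ K : Submodule ℂ A, (∀ l : List (G × Mk), l.Sublist T → ρ l.prod.1 ∈ K) →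
        ∀ w ∈ N, ρ w ∈ K := by
  obtain ⟨As, R, h, hs, hlen, hA⟩ := doubling (g := MonoidHom.fst G Mk ∘ g) h0 hall
    (esc_lev ρ hD P hP) (D + 1)
    (front_init h0 hall hk fun a ha => ⟨(g a).1, mem_cl (List.mem_singleton_self a), hPa a ha⟩)
  obtain ⟨h', hs', rfl⟩ := St.lift (MonoidHom.fst G Mk) hs
  obtain ⟨j, hj, hV⟩ := esc_chain hD (fun j => escV ρ (MonoidHom.fst G Mk ∘ h') (As.take j).flatten)
    fun j => escV_mono ρ _ (List.take_sublist_take_left (Nat.le_succ j)).flatten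
  have hj' : j < As.length := by omega
  simp only [List.take_succ_eq_append_getElem hj', List.flatten_append, List.flatten_cons,
    List.flatten_nil, List.append_nil] at hV
  obtain ⟨-, ⟨z, hz, hPz⟩, hinv⟩ := hA As[j] (List.getElem_mem hj')
  have hcj : ∀ γ y, ρ y ∈ escSp ρ (cl (MonoidHom.fst G Mk ∘ h') As[j]) →
      ρ (γ * y * γ⁻¹) ∈ escSp ρ (cl (MonoidHom.fst G Mk ∘ h') As[j]) := by
    intro γ y hy
    rw [map_mul, map_mul]
    exact (hinv γ (hg ▸ Subgroup.mem_top γ)).le ⟨ρ y, hy, rfl⟩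
  refine ⟨(As.take j).flatten.map h', (As.drop j).flatten ++ R, h',
    escN ρ (cl (MonoidHom.fst G Mk ∘ h') As[j]), ?_, fun a ha => ?_, hs'.conj,
    ⟨fun y hy γ => ⟨hcj γ y hy.1, ?_⟩⟩,
    ⟨z, ⟨Submodule.subset_span ⟨z, hz, rfl⟩, Submodule.subset_span ⟨z⁻¹, inv_mem hz, rfl⟩⟩, hPz⟩,
    fun K hK y hy => Submodule.span_le.2 ?_ (esc_le ρ _ hV hy.1)⟩
  · rw [← List.map_append, ← List.append_assoc, ← List.flatten_append, List.take_append_drop]
    exact hur_of_st h0 hs'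
  · refine List.mem_append_right _ ((List.mem_append.1
      (hs.perm.mem_iff.2 (hall a))).resolve_left fun e => ha ?_)
    obtain ⟨B, hB, haB⟩ := List.mem_flatten.1 e
    exact (hA B hB).1 a haB
  · have h2 := hcj γ y⁻¹ hy.2
    rwa [← conj_inv] at h2
  · rintro _ ⟨l, hl, rfl⟩
    have e : (l.map (MonoidHom.fst G Mk ∘ h')).prod = (l.map h').prod.1 := by
      rw [← List.map_map, ← map_list_prod]
      rfl
    exact e ▸ hK _ (hl.map h')

theorem pull {H : Type} [Group H] (T : List H) (h : Fin n → H) {C : List (Fin n)} {a : Fin n}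
    (ha : a ∈ C) : ∃ (γ : H) (C' : List (Fin n)), Hur (T ++ C.map h) ((γ * h a * γ⁻¹) :: (T ++ C'.map h)) ∧
      ∀ c ∈ C, c ≠ a → c ∈ C' := by
  obtain ⟨C₁, C₂, rfl⟩ := List.append_of_mem ha
  refine ⟨(T ++ C₁.map h).prod, C₁ ++ C₂, ?_, fun c hc e => by simpa [e] using hc⟩
  simpa using (hur_front (T ++ C₁.map h) (h a)).app_right (C₂.map h)

/-- The elements that keep the sheet `s`. -/
def stb (b : BS G d) (s : Fin d) : Subgroup G :=
  (MulAction.stabilizer (Equiv.Perm (Fin d)) s).comap b.π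

theorem stb_eq (b : BS G d) (s : Fin d) :
    stb b s = @MulAction.stabilizer G (Fin d) _ (MulAction.compHom _ b.π) s := rfl

/-- Trivial on the sheets other than `i`. -/
def Pn (b : BS G d) (x : G) (i : Fin d) : Prop := ∀ l, l ≠ i → x ∈ b.K l

variable {b : BS G d} {S : Finset (Fin d)} {s i j : Fin d} {x : G}

theorem mem_stb : x ∈ stb b s ↔ b.π x s = s := Iff.rfl

theorem Pn.conj (h : Pn b x i) (γ : G) : Pn b (γ * x * γ⁻¹) (b.π γ i) := fun l hl => by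
  rw [← (b.π γ).apply_symm_apply l] at hl ⊢
  exact b.conj γ _ x (h _ fun e => hl (by rw [e]))

theorem sup_mem (h : b.Sup ⊤ S) (γ : G) (hi : i ∈ S) : b.π γ i ∈ S := by
  by_contra k
  exact k (((b.π γ).injective (b.fix _ γ (h γ trivial _ k))).symm ▸ hi)

theorem stb_index (h : b.Sup ⊤ S) (hs : s ∈ S) : (stb b s).index ≤ S.card := by
  let _ := MulAction.compHom (Fin d) b.π
  rw [stb_eq, MulAction.index_stabilizer, ← Set.ncard_coe_finset]
  refine Set.ncard_le_ncard ?_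
  rintro _ ⟨γ, rfl⟩
  exact sup_mem h γ hs

theorem stb_fi (b : BS G d) (s : Fin d) : (stb b s).FiniteIndex := by
  let _ := MulAction.compHom (Fin d) b.π
  refine ⟨?_⟩
  rw [stb_eq, MulAction.index_stabilizer]
  exact ((Set.ncard_pos).2 ⟨s, MulAction.mem_orbit_self s⟩).ne'

theorem exists_pn (h : b.Sup ⊤ S) (hs : s ∈ S) (hx : b.Punc 1 x) : ∃ i ∈ S, Pn b x i := by
  obtain ⟨-, T, hT, k⟩ := hx
  by_cases e : ∃ i ∈ T, i ∈ S
  · obtain ⟨i, h1, h2⟩ := e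
    exact ⟨i, h2, fun l hl => k l fun h3 => hl (Finset.card_le_one.1 hT _ h3 _ h1)⟩
  · refine ⟨s, hs, fun l _ => ?_⟩
    by_cases h3 : l ∈ T
    · exact h x trivial l fun h4 => e ⟨l, h3, h4⟩
    · exact k l h3

theorem two_move (hS : S.card ≤ 2) (h : b.Sup ⊤ S) (hi : i ∈ S) (hj : j ∈ S) (hij : i ≠ j)
    (hx : b.π x ≠ 1) : b.π x j = i := by
  have e : ∀ l ∈ S, l = i ∨ l = j := fun l hl => by
    rw [← Finset.eq_of_subset_of_card_le (s := {i, j}) (Finset.insert_subset hi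
      (Finset.singleton_subset_iff.2 hj)) (by rwa [Finset.card_pair hij])] at hl
    simpa using hl
  refine (e _ (sup_mem h x hj)).resolve_right fun k => hx (Equiv.ext fun l => ?_)
  by_cases hl : l ∈ S
  · rcases e l hl with rfl | rfl
    · exact (e _ (sup_mem h x hi)).resolve_right fun k' => hij ((b.π x).injective (k'.trans k.symm))
    · exact k
  · exact b.fix l x (h x trivial l hl)

theorem esc_bs (hS : S.card ≤ 2) (hs : s ∈ S) (hsup : b.Sup ⊤ S) (ht : b.Trans ⊤ S)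
    (h0 : L0.Nodup) (hall : ∀ a, a ∈ L0) {g : Fin n → G × Mk}
    (hg : Subgroup.closure (Set.range (MonoidHom.fst G Mk ∘ g)) = ⊤) {P₀ P Q : G → Prop}
    (c₀ : ∀ γ x, P₀ x → P₀ (γ * x * γ⁻¹)) (c₁ : ∀ γ x, P x → P (γ * x * γ⁻¹))
    (c₂ : ∀ γ x, Q x → Q (γ * x * γ⁻¹)) (p₀ : ∀ x, P₀ x → b.Punc 1 x) (p₁ : ∀ x, P x → b.Punc 1 x)
    {o o' : Fin n} (hoo : o' ≠ o) (hm : Mo (g o)) (ho : P₀ (g o).1) (ho' : P (g o').1)
    (hp : PairH Mo (fun x => Q x.1) (L0.map g)) {D : ℕ}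
    (hM : ∀ a ∈ Mov, b.π (g a).1 ≠ 1 ∨ P (g a).1)
    (hk : Kf (4 * D + 1) (4 * D + 1) + 3 ≤ Mov.card) (hD : Module.finrank ℂ A ≤ D)
    (ρ : stb b s →* A) :
    ∃ (x y : stb b s) (N : Subgroup (stb b s)), P₀ x ∧ Pn b x s ∧ P y ∧ Pn b y s ∧ N.Normal ∧
      (∃ z ∈ N, ∃ z' : stb b s, (z' = x ∨ (P z' ∧ Pn b z' s)) ∧ (z'⁻¹ * z).val ∈ b.K s) ∧
      ∀ K : Submodule ℂ A, (∀ w : stb b s, Q (x * (w * y * w⁻¹)) → ρ w ∈ K) →
        ∀ w ∈ N, ρ w ∈ K := by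
  classical
  have := stb_fi b s
  obtain ⟨B, _, _, _, R, F, hB, hF, hF0⟩ := exists_ind (stb b s) ρ
  have hi := (stb_index hsup hs).trans hS
  obtain ⟨u, hu⟩ : ∃ u, (∃ a, b.π (g a).1 ≠ 1) → b.π (g u).1 ≠ 1 := by
    by_cases e : ∃ a, b.π (g a).1 ≠ 1
    · exact e.imp fun _ h _ => h
    · exact ⟨o, fun h => absurd h e⟩
  have cπ : ∀ γ x, b.π x ≠ 1 → b.π (γ * x * γ⁻¹) ≠ 1 := fun γ x h => mt (hura_conj b γ x).1 h
  obtain ⟨T, C, h, N, k1, k2, k3, k4, ⟨z, k5, k6⟩, k7⟩ := escQ (Mov := Mov \ {o, o', u})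
    (D := 4 * D) h0 hall hg
    (fun x => b.π x ≠ 1 ∨ P x) (fun γ x h => h.imp (cπ γ x) (c₁ γ x))
    (fun a ha => hM a (Finset.mem_sdiff.1 ha).1) (by
      have h1 := Finset.le_card_sdiff {o, o', u} Mov
      have h2 : ({o, o', u} : Finset (Fin n)).card ≤ 3 := Finset.card_le_three
      omega) (hB.trans_le (Nat.mul_le_mul (Nat.mul_le_mul hi hi) hD)) R
  have cj : ∀ {p : G → Prop}, (∀ γ x, p x → p (γ * x * γ⁻¹)) → ∀ a (γ : G × Mk), p (g a).1 →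
      p (γ * h a * γ⁻¹).1 := fun hp a γ k => by
    obtain ⟨c, hc⟩ := isConj_iff.1 (k3 a)
    exact hc ▸ hp γ.1 _ (hp c.1 _ k)
  obtain ⟨γ, C₁, l1, l2⟩ := pull T h (k2 o (by simp))
  have x1 := cj c₀ o γ ho
  have x2 : Mo (γ * h o * γ⁻¹) := by
    obtain ⟨c, hc⟩ := isConj_iff.1 (k3 o)
    rwa [mo_conj, ← hc, mo_conj]
  generalize γ * h o * γ⁻¹ = x at l1 x1 x2
  obtain ⟨i, hi, x3⟩ := exists_pn hsup hs (p₀ _ x1)
  obtain ⟨y, E, y1, y2, y3⟩ : ∃ (y : G × Mk) (E : List (G × Mk)),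
      Hur (C₁.map h) (y :: E) ∧ P y.1 ∧ Pn b y.1 i := by
    obtain ⟨δ, C₂, l3, l4⟩ := pull [] h (l2 o' (k2 o' (by simp)) hoo)
    have y1 := cj c₁ o' δ ho'
    generalize δ * h o' * δ⁻¹ = y at l3 y1
    obtain ⟨j, hj, y2⟩ := exists_pn hsup hs (p₁ _ y1)
    by_cases e : i = j
    · exact ⟨y, _, l3, y1, e ▸ y2⟩
    have u1 : b.π (g u).1 ≠ 1 := hu (by
      by_contra! k
      obtain ⟨w, -, hw⟩ := ht i hi j hj
      have : w ∈ b.π.ker := (Subgroup.closure_le _).2 (Set.range_subset_iff.2 k)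
        (hg ▸ Subgroup.mem_top w)
      exact e (by rw [← hw, this]; rfl))
    obtain ⟨ε, C₃, l5, -⟩ := pull [] h (l4 u (l2 u (k2 u (by simp))
      fun e => u1 (e ▸ (p₀ _ ho).1)) fun e => u1 (e ▸ (p₁ _ ho').1))
    have u2 := cj (p := fun x => b.π x ≠ 1) cπ u ε u1
    generalize ε * h u * ε⁻¹ = v at l5 u2
    refine ⟨v⁻¹ * y * v, _, Hur.left (A := []) (Hur.left (A := [])
      (l3.trans (l5.app_left [y]))), ?_, ?_⟩
    · simpa using c₁ v.1⁻¹ _ y1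
    · have := y2.conj v.1⁻¹
      rwa [two_move hS hsup hi hj e (by rwa [map_inv, Ne, inv_eq_one]), inv_inv] at this
  obtain ⟨α, -, hα⟩ := ht i hi s hs
  have st : ∀ {w}, b.π w = 1 → w ∈ stb b s := fun h => mem_stb.2 (by rw [h]; rfl)
  have x4 := c₀ α _ x1
  have x5 := hα ▸ x3.conj α
  have y4 := c₁ α _ y2
  refine ⟨⟨_, st (p₀ _ x4).1⟩, ⟨_, st (p₁ _ y4).1⟩, N.subgroupOf _, x4, x5, y4, hα ▸ y3.conj α,
    inferInstance, ?_, fun K hK w hw => ?_⟩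
  · generalize α * x.1 * α⁻¹ = x' at x4 x5
    rcases k6 with k6 | k6
    · have e : z * x'⁻¹ * z⁻¹ ∈ b.K s := (show Pn b x'⁻¹ s from fun l hl => inv_mem (x5 l hl)).conj z
        s fun e => k6 (Equiv.ext fun l => by
          by_cases hl : l ∈ S
          · by_contra k
            have hl' : s ≠ l := fun e' => k (e' ▸ e.symm)
            exact hl' ((b.π z).injective (e.symm.trans (two_move hS hsup hs hl hl' k6).symm))
          · exact b.fix l z (hsup z trivial l hl))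
      refine ⟨⟨x' * (z * x'⁻¹ * z⁻¹), mul_mem (st (p₀ _ x4).1) (b.fix s _ e)⟩, ?_, _, Or.inl rfl,
        by simpa using e⟩
      have := mul_mem (k4.conj_mem z k5 x') (inv_mem k5)
      simpa [Subgroup.mem_subgroupOf, mul_assoc] using this
    · obtain ⟨j, hj, z1⟩ := exists_pn hsup hs (p₁ _ k6)
      obtain ⟨β, -, hβ⟩ := ht j hj s hs
      exact ⟨⟨_, st (p₁ _ (c₁ β z k6)).1⟩, k4.conj_mem z k5 β, _,
        Or.inr ⟨c₁ β z k6, hβ ▸ z1.conj β⟩, by rw [inv_mul_cancel]; exact one_mem _⟩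
  · have e : ∀ v, (F ∘ₗ (escCj R α).toLinearMap) (R v) = F (R (α * v * α⁻¹)) := fun v => by
      rw [map_mul R, map_mul R]
      rfl
    have := k7 (K.comap (F ∘ₗ (escCj R α).toLinearMap)) (fun l hl => ?_) _ (k4.conj_mem' w hw α)
    · rwa [Submodule.mem_comap, e, show α * (α⁻¹ * w * α) * α⁻¹ = w by group, hF] at this
    rw [Submodule.mem_comap, e]
    by_cases k : α * l.prod.1 * α⁻¹ ∈ stb b s
    · refine (hF ⟨_, k⟩).symm ▸ hK ⟨_, k⟩ ?_
      obtain ⟨C', h2⟩ := hur_pass hl x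
      have h3 := c₂ (α * l.prod.1) _ (hp C' _ y E (k1.trans (l1.trans
        ((y1.app_left (x :: T)).trans (by simpa using h2.app_right (y :: E)))))
        (Or.inl (by simpa using (mo_conj l.prod⁻¹ x).2 x2)))
      simpa [mul_assoc] using h3
    · exact (hF0 _ k).symm ▸ K.zero_mem

end Pool.Agent.GR.OH
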