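import Pool.Agent.Lib.MP_aa40d3_nt.RC.Red

/-! Removing all sheets but two, keeping a chosen sheet. -/

namespace Pool.Agent.GR.OH

open GC FB

/-- Copy of `RC.reduce2` that keeps the sheet `s` and counts the removed members. -/
theorem reduce2_at {G : Type} [Group G] {d : ℕ} {b : BS G d} (s : Fin d) (c : ℕ) :
    ∀ (S : Finset (Fin d)) (l : List G), s ∈ S → S.card = 2 + c →
    (∀ x ∈ l, b.Ok 1 x) → b.Sup (gen l) S → b.Trans (gen l) S → l.prod = 1 →
    ∃ S' ⊆ S, s ∈ S' ∧ S'.card = 2 ∧ ∃ A B, Hur l (A ++ B) ∧ b.Sup (gen A) S' ∧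
      b.Agree (gen l) (gen A) S' ∧ B.length = 2 * c ∧ ∀ x ∈ B, b.π x ≠ 1 := by
  induction c with
  | zero =>
    intro S l hsS hS _ hs _ _
    refine ⟨S, Finset.Subset.refl S, hsS, hS, l, [], ?_, hs, ?_, rfl, by simp⟩
    · rw [List.append_nil]; exact Hur.refl l
    · intro y hy i _ _
      exact ⟨y, hy, by rw [inv_mul_cancel]; exact (b.K i).one_mem⟩
  | succ c ih =>
    intro S l hsS hS hok hs ht hp
    obtain ⟨j, hj'⟩ : (S.erase s).Nonempty :=
      Finset.card_pos.1 (by rw [Finset.card_erase_of_mem hsS]; omega)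
    obtain ⟨hjs, hj⟩ := Finset.mem_erase.1 hj'
    obtain ⟨A, x, i, h1, h2, h3⟩ := red_one le_rfl (by omega) hj hok ht (hp ▸ (b.K j).one_mem)
    have hg := h1.gen
    have hw : b.Agree (gen l) (gen A) (Finset.univ.erase j) := by
      rw [← hg]; exact BS.wreath h3 h2
    have hsub : S.erase j ⊆ Finset.univ.erase j :=
      Finset.erase_subset_erase j (Finset.subset_univ S)
    have hokA : ∀ a ∈ A, b.Ok 1 a := fun a ha =>
      h1.all (fun γ x hx => hx.conj γ) hok a (List.mem_append_left _ ha)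
    have hle : gen A ≤ gen l := by
      rw [← hg]; exact gen_le.2 fun a ha => mem_gen (List.mem_append_left _ ha)
    have hsA : b.Sup (gen A) (S.erase j) := by
      intro y hy k hk
      by_cases e : k = j
      · rw [e]; exact gen_le.2 h3 hy
      · exact hs y (hle hy) k fun h => hk (Finset.mem_erase.2 ⟨e, h⟩)
    have htA : b.Trans (gen A) (S.erase j) :=
      (hw.mono hsub).trans_of ht (Finset.erase_subset j S)
    have hpA : A.prod = l.prod := by
      rw [← h1.prod, List.prod_append, List.prod_cons, List.prod_singleton, h2.2.2.1, mul_one]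
    have hc : (S.erase j).card = 2 + c := by
      rw [Finset.card_erase_of_mem hj]; omega
    obtain ⟨S', hS', hs', hcard, C, D, h4, h5, h6, h7, h10⟩ :=
      ih (S.erase j) A (Finset.mem_erase.2 ⟨hjs.symm, hsS⟩) hc hokA hsA htA (hpA.trans hp)
    refine ⟨S', hS'.trans (Finset.erase_subset j S), hs', hcard, C, D ++ [x, x], ?_, h5,
      hw.trans h6 (hS'.trans hsub), ?_, fun y hy => ?_⟩
    · rw [← List.append_assoc]
      exact h1.trans (h4.app_right [x, x])
    · rw [List.length_append, h7]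
      rfl
    · rcases List.mem_append.1 hy with hy | hy
      · exact h10 y hy
      · obtain rfl : y = x := by simpa using hy
        intro e
        have := h2.apply
        rw [e] at this
        exact h2.1 this

/-- The marked list, reduced to at most two sheets that include `s`. -/
theorem reduce_at {G : Type} [Group G] {d : ℕ} {b : BS G d} (s : Fin d) {l : List (G × Mk)}
    (hg : gen (l.map Prod.fst) = ⊤) (ht : b.Trans ⊤ Finset.univ) (hok : ∀ x ∈ l, b.Ok 1 x.1)
    (hp : (l.map Prod.fst).prod = 1) :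
    ∃ (S : Finset (Fin d)) (A B : List (G × Mk)), s ∈ S ∧ S.card ≤ 2 ∧ Hur l (A ++ B) ∧
      b.Sup (gen (A.map Prod.fst)) S ∧ b.Agree ⊤ (gen (A.map Prod.fst)) S ∧
      B.length ≤ 2 * (d - 2) ∧ ∀ x ∈ B, b.π x.1 ≠ 1 := by
  rcases le_total d 2 with hd | hd
  · refine ⟨Finset.univ, l, [], Finset.mem_univ s, by simpa using hd, ?_,
      fun x _ j hj => absurd (Finset.mem_univ j) hj, ?_, by simp, by simp⟩
    · rw [List.append_nil]; exact Hur.refl l
    · intro y _ i _ _
      exact ⟨y, hg ▸ Subgroup.mem_top y, by rw [inv_mul_cancel]; exact (b.K i).one_mem⟩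
  · obtain ⟨c, rfl⟩ := Nat.exists_eq_add_of_le hd
    obtain ⟨S, -, hs, hS, A, B, k3, k4, k5, k6, k8⟩ := reduce2_at (b := b) s c Finset.univ
      (l.map Prod.fst) (Finset.mem_univ s) (by simp) (List.forall_mem_map.2 hok)
      (fun x _ j hj => absurd (Finset.mem_univ j) hj) (hg ▸ ht) hp
    rw [hg] at k5
    obtain ⟨l₁, h7, h8⟩ := Hur.lift (MonoidHom.fst G Mk) k3
    obtain ⟨A₁, B₁, rfl, hA, hB⟩ := List.map_eq_append_iff.1 h8
    replace hA : A₁.map Prod.fst = A := hA
    replace hB : B₁.map Prod.fst = B := hB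
    refine ⟨S, A₁, B₁, hs, hS.le, h7, hA ▸ k4, hA ▸ k5, ?_,
      fun x hx => k8 _ (hB ▸ List.mem_map_of_mem hx)⟩
    rw [← hB, List.length_map] at k6
    omega

end Pool.Agent.GR.OH
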