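import Pool.Agent.Lib.MP_aa40d3_nt.OC.Ifc
import Pool.Agent.Lib.MP_aa40d3_nt.OH.Esc
import Pool.Agent.Lib.MP_aa40d3_nt.OH.Red

/-! The escape lemma for a simple covering, with a bound that does not depend on the degree. -/

open Matrix

namespace Pool.Agent.GR.OH

open NP GC FB OP CP OC

section
variable {d : ℕ} {G : Type} [Group G] {A : Type} [Ring A] [Algebra ℂ A] [FiniteDimensional ℂ A]

/-- The sheets, for a subgroup. -/
def res (b : BS G d) (H : Subgroup G) : BS H d where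
  π := b.π.comp H.subtype
  K := fun i => (b.K i).subgroupOf H
  fix := fun i x hx => b.fix i x hx
  conj := fun γ i x hx => b.conj γ i x hx
  sep := fun x hx => Subtype.ext (b.sep x hx)

theorem ex_left {l A B : List G} (h : Hur l (A ++ B)) {p : G → Prop}
    (hp : ∀ γ x, p x → p (γ * x * γ⁻¹)) (hB : ∀ x ∈ B, ¬ p x) (h1 : ∃ x ∈ l, p x) :
    ∃ x ∈ A, p x := by
  classical
  obtain ⟨x, h1, h2⟩ := h1
  have e := hur_countP (P := fun x => decide (p x)) (fun γ x => decide_eq_decide.2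
    ⟨fun k => by simpa [mul_assoc] using hp γ⁻¹ _ k, hp γ x⟩) h
  obtain ⟨y, k1, k2⟩ := List.countP_pos_iff.1 (e ▸ List.countP_pos_iff.2 ⟨x, h1, decide_eq_true h2⟩)
  exact ⟨y, (List.mem_append.1 k1).resolve_right fun k => hB y k (of_decide_eq_true k2),
    of_decide_eq_true k2⟩

theorem card_count {n : ℕ} {L : List (Fin n)} (h0 : L.Nodup) (hall : ∀ a, a ∈ L) (p : Fin n → Prop)
    [DecidablePred p] : (Finset.univ.filter p).card = L.countP fun a => p a := by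
  rw [List.countP_eq_length_filter, ← List.toFinset_card_of_nodup (h0.filter _)]
  congr 1
  ext a
  simp [hall]

open Classical in
theorem esc_cov {b : BS G d} (s : Fin d) {l : List (G × Mk)} (hg : gen (l.map Prod.fst) = ⊤)
    (ht : b.Trans ⊤ Finset.univ) (hok : ∀ x ∈ l, b.Ok 1 x.1) (hp : (l.map Prod.fst).prod = 1)
    {P₀ P Q : G → Prop} (c₀ : ∀ γ x, P₀ x → P₀ (γ * x * γ⁻¹)) (c₁ : ∀ γ x, P x → P (γ * x * γ⁻¹))
    (c₂ : ∀ γ x, Q x → Q (γ * x * γ⁻¹)) (p₀ : ∀ x, P₀ x → b.Punc 1 x) (p₁ : ∀ x, P x → b.Punc 1 x)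
    (h1 : ∃ x ∈ l, Mo x ∧ P₀ x.1) (h2 : ∃ x ∈ l, ¬ Mo x ∧ P x.1)
    (hq : PairH Mo (fun x => Q x.1) l) {D : ℕ} (hk : Kf (4 * D + 1) (4 * D + 1) + 3 + 2 * d ≤
      l.countP fun x => b.π x.1 ≠ 1 ∨ P x.1) (hD : Module.finrank ℂ A ≤ D) (ρ : stb b s →* A)
    (hρ : ∀ x : stb b s, x.val ∈ b.K s → ρ x = 1) :
    ∃ (x y : stb b s) (N : Subgroup (stb b s)), P₀ x ∧ Pn b x s ∧ P y ∧ Pn b y s ∧ N.Normal ∧
      (∃ z ∈ N, z = x ∨ (P z ∧ Pn b z s)) ∧
      ∀ K : Submodule ℂ A, (∀ w : stb b s, Q (x * (w * y * w⁻¹)) → ρ w ∈ K) →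
        ∀ w ∈ N, ρ w ∈ K := by
  obtain ⟨S, L, B, k1, k2, k3, k4, k5, k6, k7⟩ := reduce_at s hg ht hok hp
  replace h1 := ex_left k3 (fun γ x h => ⟨(mo_conj γ x).2 h.1, c₀ γ.1 _ h.2⟩)
    (fun x hx h => k7 x hx (p₀ _ h.2).1) h1
  replace h2 := ex_left k3 (fun γ x h => ⟨mt (mo_conj γ x).1 h.1, c₁ γ.1 _ h.2⟩)
    (fun x hx h => k7 x hx (p₁ _ h.2).1) h2
  have e := hur_countP (P := fun x : G × Mk => decide (b.π x.1 ≠ 1 ∨ P x.1))
    (fun γ x => decide_eq_decide.2 (or_congr (hura_conj b γ.1 x.1).not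
      ⟨fun k => by simpa [mul_assoc] using c₁ γ.1⁻¹ _ k, c₁ γ.1 x.1⟩)) k3
  have e1 := List.countP_le_length (p := fun x : G × Mk => decide (b.π x.1 ≠ 1 ∨ P x.1)) (l := B)
  rw [List.countP_append] at e
  replace hq : PairH Mo (fun x => Q x.1) L := PairH.ctx (C := []) (D := B) (hq.hur k3)
  generalize hH : gen (L.map Prod.fst) = H at k4 k5
  let g : Fin L.length → H × Mk := fun a =>
    (⟨(L.get a).1, hH ▸ mem_gen (List.mem_map_of_mem (List.get_mem L a))⟩, (L.get a).2)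
  have hL : ((List.finRange L.length).map g).map (FB.pm H.subtype) = L := by
    rw [List.map_map]
    exact List.map_get_finRange L
  obtain ⟨x, x1, x2, x3⟩ := h1
  obtain ⟨y, y1, y2, y3⟩ := h2
  obtain ⟨o, rfl⟩ := List.get_of_mem x1
  obtain ⟨o', rfl⟩ := List.get_of_mem y1
  let ι : stb (res b H) s →* stb b s := (H.subtype.comp (Subgroup.subtype _)).codRestrict _
    fun x => x.2
  obtain ⟨x, y, N, a1, a2, a3, a4, a5, ⟨z, a6, z', a7, a8⟩, a9⟩ := esc_bs (b := res b H) (g := g)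
    (P₀ := fun x => P₀ x) (P := fun x => P x) (Q := fun x => Q x) (o := o) (o' := o')
    (Mov := Finset.univ.filter fun a => b.π (L.get a).1 ≠ 1 ∨ P (L.get a).1)
    k2 k1 (fun x _ => k4 x x.2) (fun i hi j hj => by
      obtain ⟨x, h1, h2⟩ := k5.trans_of ht (Finset.subset_univ S) i hi j hj
      exact ⟨⟨x, h1⟩, trivial, h2⟩) (List.nodup_finRange _) List.mem_finRange (by
      apply Subgroup.map_injective H.subtype_injective
      rw [MonoidHom.map_closure, ← Set.range_comp, ← MonoidHom.range_eq_map,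
        Subgroup.range_subtype]
      refine Eq.trans (congrArg Subgroup.closure (Set.ext fun x => ?_)) hH
      refine ⟨fun ⟨a, h⟩ => List.mem_map.2 ⟨_, List.get_mem L a, h⟩, fun h => ?_⟩
      obtain ⟨u, h1, h2⟩ := List.mem_map.1 h
      obtain ⟨a, rfl⟩ := List.get_of_mem h1
      exact ⟨a, h2⟩)
    (fun γ x => c₀ γ x) (fun γ x => c₁ γ x) (fun γ x => c₂ γ x) (fun x => p₀ x) (fun x => p₁ x)
    (fun e => y2 (e ▸ x2)) x2 x3 y3
    (PairH.of_map (P := Mo) (Q := fun x => Q x.1) (FB.pm H.subtype) (hL.symm ▸ hq))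
    (fun a ha => (Finset.mem_filter.1 ha).2) (by
      have e2 := List.countP_map (p := fun x : G × Mk => decide (b.π x.1 ≠ 1 ∨ P x.1))
        (f := L.get) (l := List.finRange L.length)
      rw [List.map_get_finRange] at e2
      rw [card_count (List.nodup_finRange _) List.mem_finRange]
      exact le_trans (by omega) e2.le) hD (ρ.comp ι)
  have : ((b.K s).subgroupOf (stb b s)).Normal := ⟨fun x hx γ => by
    have := b.conj γ s x hx
    rwa [show b.π γ s = s from γ.2] at this⟩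
  let φ := QuotientGroup.mk' ((b.K s).subgroupOf (stb b s))
  have hs : Function.Surjective (φ.comp ι) := fun q => by
    obtain ⟨γ, rfl⟩ := QuotientGroup.mk_surjective q
    obtain ⟨h, h1, h2⟩ := k5 γ trivial s k1 ((show b.π γ s = s from γ.2).symm ▸ k1)
    exact ⟨⟨⟨h, h1⟩, (BS.bsb_apply h2).trans γ.2⟩, QuotientGroup.eq.2 h2⟩
  refine ⟨ι x, ι y, (N.map (φ.comp ι)).comap φ, a1, a2, a3, a4, (a5.map _ hs).comap φ,
    ⟨ι z', ⟨z, a6, Eq.symm ((QuotientGroup.eq (a := ι z') (b := ι z)).2 a8)⟩, a7.imp_left (congrArg ι)⟩,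
    fun K hK w ⟨v, b1, b2⟩ => ?_⟩
  have e3 := hρ ((ι v)⁻¹ * w) ((QuotientGroup.eq (a := ι v)).1 b2)
  rw [← mul_inv_cancel_left (ι v) w, map_mul, e3, mul_one]
  exact a9 K (fun u hu => hK (ι u) hu) v b1

end

theorem esc_two (r D : ℕ) [NeZero r] : ∃ k : ℕ, ∀ (d N n : ℕ) (G : Type) [Group G]
    (σ : G →* Mt N) (b : BR σ d) (g : Fin n → G) (L0 : List (Fin n)) (o : Fin n)
    (Mov : Finset (Fin n)) (s : Fin d) (J : Matrix (Fin N) (Fin r) ℂ) (K : Matrix (Fin r) (Fin N) ℂ)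
    (hKJ : K * J = 1) (hJK : J * K = b.e s), L0.Nodup → (∀ a, a ∈ L0) →
    Subgroup.closure (Set.range g) = ⊤ → (∀ i, (b.e i).rank = r) → b.bs.Trans ⊤ Finset.univ →
    (∀ a, b.bs.Ok 1 (g a)) → (L0.map g).prod = 1 →
    (∀ a, a = o ∨ a ∈ Mov → b.π (g a) = 1 ∧
      ∃ w : stS b s, IsConj (g a) w ∧ ¬ Scl (blkS b s hKJ hJK w)) →
    o ∉ Mov → Mov.Nonempty → k + 2 * d ≤ Mov.card + b.bs.cnt (L0.map g) →
    PairH Mo (fun x => QU (σ x.1)) (L0.map (mkd {o} g)) →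
    EscS (blkS b s hKJ hJK) (fun x => IsConj (g o) x) (fun y => ∃ a ∈ Mov, IsConj (g a) y) D := by
  classical
  refine ⟨Kf (4 * D + 1) (4 * D + 1) + 3, fun d N n G _ σ b g L0 o Mov s J K hKJ hJK h0 hall hg _ ht
    hok hp hM ho ⟨a₀, ha₀⟩ hk hq A _ _ _ ρ hD hρ => ?_⟩
  have hfst : (L0.map (mkd {o} g)).map Prod.fst = L0.map g := by
    rw [List.map_map]
    rfl
  have hK : ∀ x : stS b s, x.val ∈ b.bs.K s → blkS b s hKJ hJK x = 1 := fun x hx => by
    have hJ : b.e s * J = J := by rw [← hJK, Matrix.mul_assoc, hKJ, Matrix.mul_one]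
    change K * σ x * J = 1
    rw [← hJ, Matrix.mul_assoc, ← Matrix.mul_assoc (σ x), hx.2, hJ, hKJ]
  have cj : ∀ {a : G} (γ x : G), IsConj a x → IsConj a (γ * x * γ⁻¹) := fun γ x h =>
    h.trans (isConj_of γ rfl)
  have pu : ∀ a, a = o ∨ a ∈ Mov → ∀ x, IsConj (g a) x → b.bs.Punc 1 x := fun a ha x hx => by
    obtain ⟨c, rfl⟩ := isConj_iff.1 hx
    refine ((hok a).resolve_left fun ⟨i, j, h⟩ => h.1 ?_).conj c
    have := h.apply
    rwa [show b.bs.π (g a) = 1 from (hM a ha).1] at this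
  have ns : ∀ a, a = o ∨ a ∈ Mov → ∀ x : stS b s, IsConj (g a) x → Pn b.bs x s →
      ¬ Scl (blkS b s hKJ hJK x) := fun a ha x hx h => by
    obtain ⟨w, h1, h2⟩ := (hM a ha).2
    obtain ⟨c, hc⟩ := isConj_iff.1 (hx.symm.trans h1)
    by_cases e : b.π c s = s
    · rw [show w = ⟨c, e⟩ * x * ⟨c, e⟩⁻¹ from Subtype.ext hc.symm, map_mul, map_mul] at h2
      rintro ⟨t, k⟩
      exact h2 ⟨t, by rw [k, mul_smul_comm, mul_one, smul_mul_assoc, rep_mul_inv]⟩
    · exact absurd ⟨1, by rw [hK w (hc ▸ h.conj c s (Ne.symm e)), one_smul]⟩ h2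
  obtain ⟨x, y, M, a1, a2, ⟨a, a3, a4⟩, a5, a6, ⟨z, a7, a8⟩, a9⟩ := esc_cov (b := b.bs) s
    (l := L0.map (mkd {o} g)) (P₀ := fun x => IsConj (g o) x)
    (P := fun y => ∃ a ∈ Mov, IsConj (g a) y) (Q := fun x => QU (σ x))
    (by
      rw [hfst, ← hg, gen]
      congr 1
      ext x
      simp [hall]) ht (List.forall_mem_map.2 fun a _ => hok a) (hfst ▸ hp) cj
    (fun γ x h => h.imp fun a h => ⟨h.1, cj γ x h.2⟩)
    (fun γ x hx => QU.of_isConj (a := σ.toHomUnits _) (b := σ.toHomUnits x)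
      (σ.toHomUnits.map_isConj (isConj_of γ rfl).symm) hx) (pu o (Or.inl rfl))
    (fun x ⟨a, h1, h2⟩ => pu a (Or.inr h1) x h2)
    ⟨_, List.mem_map_of_mem (hall o), mo_mkd.2 (Finset.mem_singleton_self o), IsConj.refl _⟩
    ⟨_, List.mem_map_of_mem (hall a₀), fun h => ho (Finset.mem_singleton.1 (mo_mkd.1 h) ▸ ha₀),
      a₀, ha₀, IsConj.refl _⟩ hq (hk.trans (by
      rw [BS.cnt, List.countP_map, List.countP_map]
      refine le_trans ?_ ((card_count h0 hall fun a => b.bs.π (g a) ≠ 1 ∨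
        ∃ c ∈ Mov, IsConj (g c) (g a)).le.trans (List.countP_mono_left fun a _ h =>
          @decide_eq_true _ (_) (of_decide_eq_true h)))
      refine le_trans (Nat.add_le_add_left (card_count h0 hall fun a => b.bs.π (g a) ≠ 1).ge _) ?_
      rw [← Finset.card_union_of_disjoint (Finset.disjoint_left.2 fun a h1 h2 => by
        exact (Finset.mem_filter.1 h2).2 (hM a (Or.inr h1)).1)]
      refine Finset.card_le_card fun a h => Finset.mem_filter.2 ⟨Finset.mem_univ a, ?_⟩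
      rcases Finset.mem_union.1 h with h | h
      exacts [Or.inr ⟨a, h, IsConj.refl _⟩, Or.inl (Finset.mem_filter.1 h).2])) hD ρ fun x hx => hρ x (hK x hx)
  have x1 := ns o (Or.inl rfl) x a1 a2
  refine ⟨x, y, M, a1, ⟨a, a3, a4⟩, x1, ns a (Or.inr a3) y a4 a5, a6, ⟨z, a7, ?_⟩,
    fun U hU => a9 U fun w hw => hU w (QU.of_lin (σ := σ.comp (stS b s).subtype) (L := sandL K J)
      (fun _ => rfl) hw)⟩
  rcases a8 with rfl | ⟨⟨c, h1, h2⟩, h3⟩
  exacts [x1, ns c (Or.inr h1) z h2 h3]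

end Pool.Agent.GR.OH
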